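import Mathlib
import Pool.Agent.N477.Cnt

set_option autoImplicit false

open Filter Topology

namespace Pool.Agent.Results.MP_fc7b8c_co.NotSharpF7

open Classical in
/-- Følner sequences: `|Φ_N ∩ (g + Φ_N)| / |Φ_N| → 1` for every `g` (since `0 / 0 = 0` here, the
condition forces all but finitely many `Φ_N` to be nonempty) -/
def IsFolner {G : Type} [AddCommGroup G] (Φ : ℕ → Finset G) : Prop :=
  ∀ g : G, Tendsto (fun N : ℕ => ((Φ N ∩ (Φ N).image (fun x => g + x)).card : ℝ) / (Φ N).card)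
    atTop (𝓝 1)

open Classical in
/-- the upper density of `A` along `Φ` -/
noncomputable def upperDensity {G : Type} (Φ : ℕ → Finset G) (A : Set G) : ℝ :=
  limsup (fun N : ℕ => (((Φ N).filter (fun x => x ∈ A)).card : ℝ) / (Φ N).card) atTop

open Classical in
/-- the doubling ratio `liminf |{x ∈ Φ_N : x + x ∈ Φ_N}| / |Φ_N|` of `Φ` -/
noncomputable def doublingRatio {G : Type} [AddCommGroup G] (Φ : ℕ → Finset G) : ℝ :=
  liminf (fun N : ℕ => (((Φ N).filter (fun x => x + x ∈ Φ N)).card : ℝ) / (Φ N).card) atTop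

/-- the doubling map `x ↦ x + x` -/
def doubling (G : Type) [AddCommGroup G] : G →+ G := AddMonoidHom.id G + AddMonoidHom.id G

/-- `ℓ = [G : 2G]` (as a natural number, `0` if infinite) -/
noncomputable def ell (G : Type) [AddCommGroup G] : ℕ := (doubling G).range.index

/-- `r = |ker D|` (as a natural number, `0` if infinite) -/
noncomputable def kerCard (G : Type) [AddCommGroup G] : ℕ := Nat.card (doubling G).ker

theorem seven_smul (x : ℕ →₀ ZMod 7) : (7 : ℕ) • x = 0 := by
  ext i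
  rw [Finsupp.smul_apply, nsmul_eq_mul]
  have : ((7 : ℕ) : ZMod 7) = 0 := ZMod.natCast_self 7
  rw [this, zero_mul]
  rfl

theorem four_add (x : ℕ →₀ ZMod 7) : (4 : ℕ) • x + (4 : ℕ) • x = x := by
  rw [← add_nsmul, show 4 + 4 = 7 + 1 from rfl, add_nsmul, seven_smul, one_nsmul, zero_add]

theorem conv_card (d1 : DecidableEq (ℕ →₀ ZMod 7))
    (d2 : DecidableEq (Multiplicative (ℕ →₀ ZMod 7)))
    (F : Finset (ℕ →₀ ZMod 7)) (g : ℕ →₀ ZMod 7) :
    (@Inter.inter _ (@Finset.instInter _ d1) F (@Finset.image _ _ d1 (fun x => g + x) F)).card =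
      (@Inter.inter (Finset (Multiplicative (ℕ →₀ ZMod 7))) (@Finset.instInter _ d2)
        (@Finset.image _ _ d2 (fun x : Multiplicative (ℕ →₀ ZMod 7) =>
          (Multiplicative.ofAdd g) * x) F) F).card := by
  have h : d1 = d2 := Subsingleton.elim _ _
  subst h
  rw [@Finset.inter_comm _ d1 F]
  rfl

/-- The infinite countable group `G = 𝔽₇^ω` has `ℓ = r = 1`, and for every Følner sequence `Φ` in
`G` with positive doubling ratio, every set of upper density at least `1 - α_Φ / (ℓ + r)` along `Φ`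
contains `B + B` for an infinite set `B`. -/
theorem result :
    Infinite (ℕ →₀ ZMod 7) ∧ Countable (ℕ →₀ ZMod 7) ∧
    ell (ℕ →₀ ZMod 7) = 1 ∧ kerCard (ℕ →₀ ZMod 7) = 1 ∧
    ∀ Φ : ℕ → Finset (ℕ →₀ ZMod 7), IsFolner Φ → 0 < doublingRatio Φ →
      ∀ A : Set (ℕ →₀ ZMod 7),
        1 - doublingRatio Φ / ((ell (ℕ →₀ ZMod 7) : ℝ) + kerCard (ℕ →₀ ZMod 7)) ≤
          upperDensity Φ A →
        ∃ B : Set (ℕ →₀ ZMod 7), B.Infinite ∧ ∀ x ∈ B, ∀ y ∈ B, x + y ∈ A := by
  classical
  have hinf : Infinite (ℕ →₀ ZMod 7) := by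
    refine Infinite.of_injective (fun n : ℕ => Finsupp.single n (1 : ZMod 7)) ?_
    exact Finsupp.single_left_injective (by decide)
  have hcount : Countable (ℕ →₀ ZMod 7) := inferInstance
  have hell : ell (ℕ →₀ ZMod 7) = 1 := by
    have : (doubling (ℕ →₀ ZMod 7)).range = ⊤ := by
      rw [AddMonoidHom.range_eq_top]
      intro x
      exact ⟨(4 : ℕ) • x, four_add x⟩
    unfold ell
    rw [this, AddSubgroup.index_top]
  have hker : kerCard (ℕ →₀ ZMod 7) = 1 := by
    have : (doubling (ℕ →₀ ZMod 7)).ker = ⊥ := by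
      rw [AddMonoidHom.ker_eq_bot_iff]
      intro x y hxy
      have h1 : x + x = y + y := hxy
      rw [← four_add x, ← four_add y, ← smul_add, ← smul_add, h1]
    unfold kerCard
    rw [this]
    exact AddSubgroup.card_bot
  refine ⟨hinf, hcount, hell, hker, fun Φ hΦ hα A hA => ?_⟩
  rw [hell, hker] at hA
  by_contra hno
  set f : ℕ → ℝ := fun N => (((Φ N).filter (fun x => x ∈ A)).card : ℝ) / (Φ N).card with hf
  set g : ℕ → ℝ := fun N => (((Φ N).filter (fun x => x + x ∈ Φ N)).card : ℝ) / (Φ N).card with hg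
  set α : ℝ := doublingRatio Φ with hαdef
  have hαeq : α = liminf g atTop := by
    rw [hαdef, hg]
    unfold doublingRatio
    congr!
  have hfu : upperDensity Φ A = limsup f atTop := rfl
  have f01 : ∀ N, 0 ≤ f N ∧ f N ≤ 1 := by
    intro N
    constructor
    · positivity
    · apply div_le_one_of_le₀ _ (Nat.cast_nonneg _)
      exact_mod_cast Finset.card_filter_le _ _
  have g01 : ∀ N, 0 ≤ g N ∧ g N ≤ 1 := by
    intro N
    constructor
    · positivity
    · apply div_le_one_of_le₀ _ (Nat.cast_nonneg _)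
      exact_mod_cast Finset.card_filter_le _ _
  have h1 : 1 - 2 / 3 * α < limsup f atTop := by
    rw [← hfu]
    push_cast at hA
    linarith
  obtain ⟨δ, hδ1, hδ2⟩ := exists_between h1
  have hfreq : ∃ᶠ N : ℕ in atTop, δ < f N := by
    have hcob : IsCoboundedUnder (· ≤ ·) atTop f := by
      apply IsBoundedUnder.isCoboundedUnder_flip
      exact isBoundedUnder_of ⟨0, fun N => (f01 N).1⟩
    exact frequently_lt_of_lt_limsup hcob hδ2
  have hnb : (atTop ⊓ 𝓟 {N | δ < f N} : Filter ℕ).NeBot := frequently_iff_neBot.mp hfreq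
  set 𝒰 : Ultrafilter ℕ := Ultrafilter.of (atTop ⊓ 𝓟 {N | δ < f N}) with h𝒰
  have hle : (𝒰 : Filter ℕ) ≤ atTop ⊓ 𝓟 {N | δ < f N} := Ultrafilter.of_le _
  have hat : (𝒰 : Filter ℕ) ≤ atTop := hle.trans inf_le_left
  have hδ : ∀ᶠ N in (𝒰 : Filter ℕ), δ < f N :=
    (hle.trans inf_le_right) (Filter.mem_principal_self _)
  have hfl := Pool.Agent.TH396.PS.tendsto_ulim 𝒰 f
    (Pool.Agent.TH396.PS.Bdd.of_mem 0 1 f01)
  have hgl := Pool.Agent.TH396.PS.tendsto_ulim 𝒰 g
    (Pool.Agent.TH396.PS.Bdd.of_mem 0 1 g01)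
  set d : ℝ := limUnder (𝒰 : Filter ℕ) f with hd
  set α' : ℝ := limUnder (𝒰 : Filter ℕ) g with hα'
  have hdδ : δ ≤ d := ge_of_tendsto hfl (hδ.mono fun N hN => hN.le)
  have hαα' : α ≤ α' := by
    apply le_of_forall_lt
    intro b hb
    obtain ⟨b', hb1, hb2⟩ := exists_between hb
    rw [hαeq] at hb2
    have hbd : IsBoundedUnder (· ≥ ·) atTop g := isBoundedUnder_of ⟨0, fun N => (g01 N).1⟩
    have h2 := eventually_lt_of_lt_liminf hb2 hbd
    exact lt_of_lt_of_le hb1 (ge_of_tendsto hgl (hat (h2.mono fun N hN => hN.le)))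
  have hM : Infinite (Multiplicative (ℕ →₀ ZMod 7)) := hinf
  have hMc : Countable (Multiplicative (ℕ →₀ ZMod 7)) := hcount
  have key := Pool.Agent.N477.dens7 (G := Multiplicative (ℕ →₀ ZMod 7))
    (fun x => seven_smul x) A
    (by
      rintro ⟨B, hB, h⟩
      exact hno ⟨B, hB, fun x hx y hy => h x hx y hy⟩) Φ 𝒰
    (by
      intro g
      have h2 := (hΦ g).mono_left hat
      refine h2.congr fun N => ?_
      congr 2
      exact conv_card _ _ (Φ N) g) d α'
    (by
      refine hfl.congr fun N => ?_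
      rw [hf]
      beta_reduce
      congr 1
      rw [Finset.card_filter]
      push_cast
      refine Finset.sum_congr rfl fun x _ => ?_
      rw [Set.indicator_apply]
      rfl)
    (by
      refine hgl.congr fun N => ?_
      rw [hg]
      beta_reduce
      congr 2
      refine congrArg Finset.card (Finset.filter_congr fun x _ => ?_)
      rw [← two_nsmul]
      rfl)
  linarith

end Pool.Agent.Results.MP_fc7b8c_co.NotSharpF7
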